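import Mathlib
import Pool.Agent.H27Z.PH.Defs
import Pool.Agent.H27Z.PH.Final

set_option autoImplicit false

namespace Pool.Agent.Results.MP_815c6c_an.ScalarCounterexample

open MeasureTheory Metric Pool.Agent.H27Z.PHDefs

/-- For every target dimension `n ≥ 1` (the scalar case `n = 1` included), every `d ≥ 2 m ≥ 4` and
every `1 < p < 2` with `3 p ^ 2 + (2 m - 5) p > 6` (all `1 < p < 2` for `m = 4`, all
`8 / 5 ≤ p < 2` for `m = 2`) there is a map `h` with weak gradient `G` that is `p`-harmonic on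
every open `Ω` containing the origin, while `V (G)` has no `C¹` representative on `Ω` and the
linear decay of its `L²` mean oscillation fails on `Ω`. -/
theorem result (d n m : ℕ) (p : ℝ) (hn : 1 ≤ n) (hm : 2 ≤ m) (hd : 2 * m ≤ d)
    (hp : 1 < p) (hp2 : p < 2) (hcond : 6 < 3 * p ^ 2 + (2 * m - 5) * p) :
    ∃ (h : E d → E n) (G : E d → Mat n d), ∀ Ω : Set (E d), IsOpen Ω → 0 ∈ Ω →
      IsPHarmonic p Ω h G ∧
      (¬ ∃ W : E d → Mat n d, ContDiffOn ℝ 1 W Ω ∧
        W =ᵐ[volume.restrict Ω] fun x => V p (G x)) ∧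
      ¬ ∃ c : ℝ, ∀ (x₀ : E d) (r : ℝ), 0 < r → ball x₀ r ⊆ Ω → ∀ θ ∈ Set.Ioc (0 : ℝ) 1,
        excess (fun x => V p (G x)) (ball x₀ (θ * r)) ≤
          c * θ * excess (fun x => V p (G x)) (ball x₀ r) :=
  Pool.Agent.H27Z.PH.final d n m p hn hm hd hp hp2 hcond

end Pool.Agent.Results.MP_815c6c_an.ScalarCounterexample
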